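import Pool.Agent.H29.TS.TreeMain
import Pool.Agent.H29.TS.Cor

/-!
# Threefold sumset membership by hashing and comparisons (MP_a4b548_lc)

The model (`Tree`, `Tree.Accepts`, `Tree.Bounded`, `OfTwoSets`) is defined in
`Pool.Agent.H29.TS.TreeModel`.
-/

set_option autoImplicit false

namespace Pool.Agent.Results.MP_a4b548_lc.HashingAndComparisons

open Pool.Agent.H29.TS Pool.Agent.H80.TS

open Classical in
/-- Let a randomised algorithm (a finite probability space `Ω`, `p` of decision trees `A ω`) decide,
for all sets of `n` integers given by injective `a 0`, `a 1`, `a 2` and all integers `x`, whether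
`x` is a sum of elements of the three sets, with probability at least `2 / 3`. Let it compute on
every branch at most `T` values (which are hashed) and at most `R` comparisons, all of polynomials
of degree at most `D`, with all finite information on the second set, the third set and `x` free.
Then `n ^ 2 ≤ (10 ^ 17) ^ (1 + R / n) * D ^ 4 * (T + R)` and
`c * n * log n ≤ D ^ 4 * (T + R)` with an absolute constant `c > 0`. -/
theorem result : ∃ c : ℝ, 0 < c ∧
    ∀ (n D T R : ℕ) (Ω : Type) [Fintype Ω] (p : Ω → ℝ) (A : Ω → Tree n), 0 < D →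
      (∀ ω, (A ω).Bounded (OfTwoSets n) D T R) → (∀ ω, 0 ≤ p ω) → ∑ ω, p ω = 1 →
      (∀ (a : Fin 3 → Fin n → ℤ) (x : ℤ), (∀ d, Function.Injective (a d)) →
        2 / 3 ≤ ∑ ω ∈ Finset.univ.filter (fun ω => ((A ω).Accepts a x ↔ InSumset a x)), p ω) →
      (n : ℝ) ^ 2 ≤ (10 ^ 17 : ℝ) ^ (1 + (R : ℝ) / n) * D ^ 4 * (T + R) ∧
      c * n * Real.log n ≤ D ^ 4 * (T + R) :=
  ⟨cst, cst_pos, fun n D T R Ω _ p A hD hB hp hsum hA =>
    have h := tree_bound n D T R hD Ω p A hB hp hsum hA
    ⟨root_form n D T R h, log_form n D T R hD h⟩⟩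

end Pool.Agent.Results.MP_a4b548_lc.HashingAndComparisons
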