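import Pool.Agent.H29.TS.SetsMain
import Pool.Agent.H29.TS.TreeUpper

/-!
# Threefold sumset membership by hashing of polynomials (MP_a4b548_lc)

The model (`Tree`, `Tree.Accepts`, `Tree.Bounded`, `OfSets`) is defined in
`Pool.Agent.H29.TS.TreeModel`.
-/

set_option autoImplicit false

namespace Pool.Agent.Results.MP_a4b548_lc.PolynomialHashing

open Pool.Agent.H29.TS Pool.Agent.H80.TS

open Classical in
/-- 1. Let a randomised algorithm (a finite probability space `Ω`, `p` of decision trees `A ω`)
decide, for all sets of `n` integers given by injective `a 0`, `a 1`, `a 2` and all integers `x`,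
whether `x` is a sum of elements of the three sets, with probability at least `2 / 3`. Let it
compute on every branch at most `T` values (which are hashed) and at most `R` comparisons, all of
polynomials of degree at most `D`, with all finite information on the three sets and the
comparisons of `x` with their elements free. Then `n ^ 2 ≤ 3 ^ R * (12 * D) ^ 4 * (T + R)`.
2. Some deterministic decision tree always decides this correctly with `n ^ 2 + n` values of
polynomials of degree `1`, no comparisons and no free information. -/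
theorem result :
    (∀ (n D T R : ℕ) (Ω : Type) [Fintype Ω] (p : Ω → ℝ) (A : Ω → Tree n),
      (∀ ω, (A ω).Bounded (OfSets n) D T R) → (∀ ω, 0 ≤ p ω) → ∑ ω, p ω = 1 →
      (∀ (a : Fin 3 → Fin n → ℤ) (x : ℤ), (∀ d, Function.Injective (a d)) →
        2 / 3 ≤ ∑ ω ∈ Finset.univ.filter (fun ω => ((A ω).Accepts a x ↔ InSumset a x)), p ω) →
      n ^ 2 ≤ 3 ^ R * (12 * D) ^ 4 * (T + R)) ∧
    (∀ n : ℕ, ∃ τ : Tree n, τ.Bounded (fun _ _ => False) 1 (n ^ 2 + n) 0 ∧
      ∀ (a : Fin 3 → Fin n → ℤ) (x : ℤ), τ.Accepts a x ↔ InSumset a x) :=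
  ⟨fun n D T R Ω _ p A hB hp hsum hA => sets_bound n D T R Ω p A hB hp hsum hA,
    fun n => tree_upper n 1 le_rfl _⟩

end Pool.Agent.Results.MP_a4b548_lc.PolynomialHashing
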